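import Pool.Agent.H625.IdA.Final
import Pool.Agent.H625.Tr.Ground
import Pool.Graph.R_seed8.Results.MP_88803c_co.IdealAntichainsTwoPow

/-!
# Posets without uncountable antichains and with many incomparable ideals

In ZFC we define a preordered set `P` of forcing conditions with the countable chain condition such
that every condition forces: there are a poset `X` without antichains of size `ℵ₁` and a family of
more than `2 ^ ℵ₁` pairwise incomparable ideals of `X`. So it is consistent that the bound
`i(μ) ≤ (μ ^ μ)⁺` fails for `μ = ℵ₁`. Under GCH it holds for all `μ`.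

A sentence of the forcing language of `P` is represented by the set of the conditions which force
it. Negation, conjunction and universal quantification are the primitive connectives, with their
usual forcing clauses; the other connectives are defined from them classically. A name for a subset
of a ground model set `X` is a map sending `x : X` to a set of conditions; `meets N` is the
sentence saying that the generic filter meets the set `N` of conditions. Every subset in the
extension of a ground model set has a name of this kind, and every poset of the extension and every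
index set of a family in the extension is in bijection with a set of the ground model.
-/

set_option autoImplicit false

namespace Pool.Agent.Results.MP_88803c_co.SecondQuestionIndependent

open Cardinal

universe v

/-! ### The forcing language -/

section Language

variable {P : Type} [Preorder P]

/-- `p` forces `not φ` iff no `q ≤ p` forces `φ`. -/
def fnot (φ : Set P) : Set P := {p | ∀ q ≤ p, q ∉ φ}

/-- `p` forces `φ and ψ` iff it forces both. -/
def fand (φ ψ : Set P) : Set P := {p | p ∈ φ ∧ p ∈ ψ}

/-- `p` forces `for all i, φ i` iff it forces every `φ i`. -/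
def fall {ι : Sort v} (φ : ι → Set P) : Set P := {p | ∀ i, p ∈ φ i}

/-- `φ implies ψ` is `not (φ and not ψ)`. -/
def fimp (φ ψ : Set P) : Set P := fnot (fand φ (fnot ψ))

/-- `there is i with φ i` is `not for all i, not φ i`. -/
def fex {ι : Sort v} (φ : ι → Set P) : Set P := fnot (fall fun i => fnot (φ i))

/-- An absolute statement about ground model objects. -/
def fground (h : Prop) : Set P := {_p | h}

/-- `p` forces that the generic filter meets the set `N` of conditions:
the set of `r` lying below some member of `N` is dense below `p`. -/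
def meets (N : Set P) : Set P := {p | ∀ q ≤ p, ∃ r ≤ q, ∃ s ∈ N, r ≤ s}

/-- The relation named by `R` is a function from `X` to `Y`. -/
def IsFun {X Y : Type} (R : X → Y → Set P) : Set P :=
  fand (fall fun x => fex fun y => meets (R x y))
    (fall fun x => fall fun y => fall fun y' =>
      fimp (fand (meets (R x y)) (meets (R x y'))) (fground (y = y')))

/-- The relation named by `R` is onto `Y`. -/
def IsOnto {X Y : Type} (R : X → Y → Set P) : Set P :=
  fall fun y => fex fun x => meets (R x y)

/-- Every uncountable cardinal of the ground model is a cardinal of the extension: no function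
from a set of smaller ground model cardinality `μ` to `ν` is onto. -/
def CardinalsPreserved (P : Type) [Preorder P] : Set P :=
  fall fun μ : Cardinal.{0} => fall fun ν : Cardinal.{0} => fall fun _ : μ < ν =>
    fall fun _ : ℵ₀ < ν =>
      fnot (fex fun R : μ.out → ν.out → Set P => fand (IsFun R) (IsOnto R))

end Language

/-! ### The sentence -/

section Sentence

/-- The well-ordered set `ω₁` of the countable ordinals (of the ground model). -/
abbrev Om1 : Type := (ℵ₁ : Cardinal.{0}).ord.ToType

variable {P : Type} [Preorder P] {X : Type}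

/-- `R x y` (read: `x ≤ y`) is a partial order on `X`. -/
def IsPO (R : X → X → Set P) : Set P :=
  fand (fall fun x => meets (R x x))
    (fand (fall fun x => fall fun y => fall fun z =>
        fimp (fand (meets (R x y)) (meets (R y z))) (meets (R x z)))
      (fall fun x => fall fun y =>
        fimp (fand (meets (R x y)) (meets (R y x))) (fground (x = y))))

/-- There is no antichain of size `ℵ₁`: for every function `f` from `ω₁` to `X` there are `a ≠ b`
with `f a ≤ f b`. -/
def NoAnti (R : X → X → Set P) : Set P :=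
  fall fun f : Om1 → X → Set P => fimp (IsFun f) (fex fun a => fex fun b =>
    fand (fground (a ≠ b)) (fex fun x => fex fun y =>
      fand (meets (f a x)) (fand (meets (f b y)) (meets (R x y)))))

/-- The subset `I` of `X` is an ideal: it is initial and up-directed. -/
def IsIdealN (R : X → X → Set P) (I : X → Set P) : Set P :=
  fand (fall fun x => fall fun y => fimp (fand (meets (I y)) (meets (R x y))) (meets (I x)))
    (fall fun x => fall fun y => fimp (fand (meets (I x)) (meets (I y)))
      (fex fun z => fand (meets (I z)) (fand (meets (R x z)) (meets (R y z)))))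

/-- `Y` has more than `2 ^ ℵ₁` elements: for every family of subsets `S y` of `ω₁` with index set
`Y` there are `y ≠ y'` with `S y = S y'`. -/
def BigN (P : Type) [Preorder P] (Y : Type) : Set P :=
  fall fun S : Y → Om1 → Set P => fex fun y => fex fun y' => fand (fground (y ≠ y'))
    (fall fun a => fand (fimp (meets (S y a)) (meets (S y' a)))
      (fimp (meets (S y' a)) (meets (S y a))))

/-- There are a partially ordered set `X` without antichains of size `ℵ₁` and a family of more than
`2 ^ ℵ₁` ideals `J y` of `X` such that `J y` is not included in `J y'` if `y ≠ y'`. -/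
def Fails (P : Type) [Preorder P] : Set P :=
  fex fun X : Type => fex fun R : X → X → Set P => fex fun Y : Type =>
    fex fun J : Y → X → Set P =>
      fand (IsPO R) (fand (NoAnti R) (fand (fall fun y => IsIdealN R (J y))
        (fand (fall fun y => fall fun y' => fall fun _ : y ≠ y' =>
          fex fun x => fand (meets (J y x)) (fnot (meets (J y' x)))) (BigN P Y))))

end Sentence

/-! ### The ordinary notions -/

/-- The countable chain condition: every set of pairwise incompatible elements is countable. -/
def IsCCC (P : Type) [Preorder P] : Prop :=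
  ∀ A : Set P, (∀ p ∈ A, ∀ q ∈ A, p ≠ q → ¬ ∃ r : P, r ≤ p ∧ r ≤ q) → A.Countable

/-- `X` belongs to the class `D(κ)`: it contains no antichain of cardinality `κ`. -/
def InD (κ : Cardinal.{0}) (X : Type) [PartialOrder X] : Prop :=
  ¬ ∃ A : Set X, IsAntichain (· ≤ ·) A ∧ #A = κ

/-- The poset `I(X)` of ideals of `X`: the initial and up-directed subsets of `X`, ordered by
inclusion (the order of a subtype of `Set X`). -/
abbrev Ideals (X : Type) [PartialOrder X] : Type :=
  {J : Set X // IsLowerSet J ∧ DirectedOn (· ≤ ·) J}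

/-- The statement of Q2 for the cardinal `μ`: for every poset `X` in `D(μ)` the poset `I(X)` has no
antichain of cardinality `(μ ^ μ)⁺`. -/
def QTwo (μ : Cardinal.{0}) : Prop :=
  ∀ (X : Type) [PartialOrder X], InD μ X → InD (Order.succ (μ ^ μ)) (Ideals X)

open Pool.Agent.H625.Tr in
theorem fails_unit (p : Unit) : p ∈ Fails Unit ↔ ¬ QTwo ℵ₁ := by
  have hpow : (ℵ₁ : Cardinal.{0}) ^ (ℵ₁ : Cardinal.{0}) = 2 ^ (ℵ₁ : Cardinal.{0}) :=
    power_self_eq (aleph0_le_aleph 1)
  have h1 : p ∈ Fails Unit ↔ ∃ (X : Type) (R : X → X → Set Unit) (Y : Type)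
      (J : Y → X → Set Unit), (() ∈ IsPO R ∧ () ∈ NoAnti R ∧ (∀ y, () ∈ IsIdealN R (J y)) ∧
        (∀ y y', y ≠ y' → ∃ x, () ∈ J y x ∧ () ∉ J y' x) ∧ () ∈ BigN Unit Y) := by
    show () ∈ Pool.Agent.H625.IdA.Fails Unit ↔ _
    unfold Pool.Agent.H625.IdA.Fails
    simp only [u_fall, u_fand, u_fex, u_meets, u_fnot]
    rfl
  have h2 : ∀ {X : Type} (R : X → X → Set Unit), () ∈ IsPO R ↔ (∀ x, () ∈ R x x) ∧
      (∀ x y z, () ∈ R x y ∧ () ∈ R y z → () ∈ R x z) ∧
      ∀ x y, () ∈ R x y ∧ () ∈ R y x → x = y := by
    intro X R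
    show () ∈ Pool.Agent.H625.IdA.IsPO R ↔ _
    unfold Pool.Agent.H625.IdA.IsPO
    simp only [u_fall, u_fand, u_fimp, u_meets, u_fground]
  have h3 : ∀ {X : Type} (R : X → X → Set Unit), () ∈ NoAnti R ↔
      ∀ f : Om1 → X, ∃ a b, a ≠ b ∧ () ∈ R (f a) (f b) := by
    intro X R
    show () ∈ Pool.Agent.H625.IdA.NoAnti R ↔ _
    unfold Pool.Agent.H625.IdA.NoAnti Pool.Agent.Helper669.Forcing.IsFun
    simp only [u_fall, u_fand, u_fimp, u_fex, u_meets, u_fground]
    constructor
    · intro h f
      obtain ⟨a, b, hab, x, y, hx, hy, hxy⟩ := h (fun a x => {_u | f a = x})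
        ⟨fun a => ⟨f a, rfl⟩, fun a x y hxy =>
          (show f a = x from hxy.1).symm.trans (show f a = y from hxy.2)⟩
      have hx' : f a = x := hx
      have hy' : f b = y := hy
      subst hx' hy'
      exact ⟨a, b, hab, hxy⟩
    · rintro h f ⟨hf1, _⟩
      choose g hg using hf1
      obtain ⟨a, b, hab, hr⟩ := h g
      exact ⟨a, b, hab, g a, g b, hg a, hg b, hr⟩
  have h4 : ∀ {X : Type} (R : X → X → Set Unit) (I : X → Set Unit), () ∈ IsIdealN R I ↔
      (∀ x y, () ∈ I y ∧ () ∈ R x y → () ∈ I x) ∧
      ∀ x y, () ∈ I x ∧ () ∈ I y → ∃ z, () ∈ I z ∧ () ∈ R x z ∧ () ∈ R y z := by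
    intro X R I
    show () ∈ Pool.Agent.H625.IdA.IsIdealN R I ↔ _
    unfold Pool.Agent.H625.IdA.IsIdealN
    simp only [u_fall, u_fand, u_fimp, u_fex, u_meets]
  have h5 : ∀ Y : Type, () ∈ BigN Unit Y ↔ (2 : Cardinal.{0}) ^ (ℵ₁ : Cardinal.{0}) < #Y := by
    intro Y
    have h6 : () ∈ BigN Unit Y ↔ ∀ S : Y → Om1 → Set Unit, ∃ y y', y ≠ y' ∧
        ∀ a, (() ∈ S y a → () ∈ S y' a) ∧ (() ∈ S y' a → () ∈ S y a) := by
      show () ∈ Pool.Agent.H625.IdA.BigN Unit Y ↔ _
      unfold Pool.Agent.H625.IdA.BigN
      simp only [u_fall, u_fand, u_fimp, u_fex, u_meets, u_fground]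
    have h7 : (2 : Cardinal.{0}) ^ (ℵ₁ : Cardinal.{0}) = #(Set Om1) := by
      rw [mk_set, mk_ord_toType]
    rw [h6, h7]
    constructor
    · intro h
      by_contra hcon
      obtain ⟨e⟩ := not_lt.1 hcon
      obtain ⟨y, y', hne, hy⟩ := h fun y a => {_u | a ∈ e y}
      exact hne (e.injective (Set.ext fun a => ⟨(hy a).1, (hy a).2⟩))
    · intro h S
      by_contra hcon
      push Not at hcon
      have hinj : Function.Injective (fun y => {a | () ∈ S y a} : Y → Set Om1) := by
        intro y y' hyy
        by_contra hne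
        obtain ⟨a, ha⟩ := hcon y y' hne
        have hiff : () ∈ S y a ↔ () ∈ S y' a := Set.ext_iff.1 hyy a
        exact (ha hiff.1).2 (hiff.2 (ha hiff.1).1)
      exact absurd (mk_le_of_injective hinj) (not_le.2 h)
  rw [h1]
  unfold QTwo
  push Not
  constructor
  · rintro ⟨X, R, Y, J, hPO, hNA, hJ, hne, hY⟩
    rw [h2] at hPO
    rw [h3] at hNA
    rw [h5] at hY
    let _ : PartialOrder X :=
      { le := fun x y => () ∈ R x y
        le_refl := hPO.1
        le_trans := fun x y z h h' => hPO.2.1 x y z ⟨h, h'⟩
        le_antisymm := fun x y h h' => hPO.2.2 x y ⟨h, h'⟩ }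
    refine ⟨X, inferInstance, ?_, ?_⟩
    · rintro ⟨A, hA, hcard⟩
      have h8 : #Om1 = #A := by rw [hcard, mk_ord_toType]
      obtain ⟨e⟩ := Cardinal.eq.1 h8
      obtain ⟨a, b, hab, hle⟩ := hNA fun a => (e a).1
      exact hA (e a).2 (e b).2 (fun h => hab (e.injective (Subtype.ext h))) hle
    · unfold InD
      rw [not_not, hpow]
      let j : Y → Ideals X := fun y => ⟨{x | () ∈ J y x}, fun x z hzx hx =>
        ((h4 R (J y)).1 (hJ y)).1 z x ⟨hx, hzx⟩, fun x hx z hz => by
          obtain ⟨w, hw1, hw2, hw3⟩ := ((h4 R (J y)).1 (hJ y)).2 x z ⟨hx, hz⟩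
          exact ⟨w, hw1, hw2, hw3⟩⟩
      have hj : ∀ y y', y ≠ y' → ¬ j y ≤ j y' := by
        intro y y' hyy hle
        obtain ⟨x, hx, hx'⟩ := hne y y' hyy
        exact hx' (hle hx)
      have hinj : Function.Injective j := by
        intro y y' hyy
        by_contra hc
        exact hj y y' hc hyy.le
      have h9 : Order.succ ((2 : Cardinal.{0}) ^ (ℵ₁ : Cardinal.{0})) ≤ #(Set.range j) := by
        rw [mk_range_eq j hinj]
        exact Order.succ_le_of_lt hY
      obtain ⟨A, hA, hcard⟩ := Cardinal.le_mk_iff_exists_subset.1 h9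
      refine ⟨A, ?_, hcard⟩
      intro a ha b hb hab hle
      obtain ⟨y, rfl⟩ := hA ha
      obtain ⟨y', rfl⟩ := hA hb
      exact hj y y' (fun h => hab (by rw [h])) hle
  · rintro ⟨X, _, hX, hI⟩
    unfold InD at hI
    rw [not_not, hpow] at hI
    obtain ⟨A, hA, hcard⟩ := hI
    refine ⟨X, fun x y => {_u | x ≤ y}, A, fun y x => {_u | x ∈ y.1.1}, ?_, ?_, ?_, ?_, ?_⟩
    · rw [h2]
      exact ⟨fun x => le_refl x, fun x y z h => le_trans h.1 h.2, fun x y h => le_antisymm h.1 h.2⟩
    · rw [h3]
      intro f
      by_contra hcon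
      push Not at hcon
      have hcon' : ∀ a b, a ≠ b → ¬ f a ≤ f b := hcon
      have hinj : Function.Injective f := by
        intro a b hab
        by_contra hne
        exact hcon' a b hne hab.le
      refine hX ⟨Set.range f, ?_, ?_⟩
      · rintro _ ⟨a, rfl⟩ _ ⟨b, rfl⟩ hne hle
        exact hcon' a b (fun h => hne (by rw [h])) hle
      · rw [mk_range_eq f hinj, mk_ord_toType]
    · intro y
      rw [h4]
      refine ⟨fun x z h => y.1.2.1 h.2 h.1, fun x z h => ?_⟩
      obtain ⟨w, hw1, hw2, hw3⟩ := y.1.2.2 x h.1 z h.2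
      exact ⟨w, hw1, hw2, hw3⟩
    · intro y y' hne
      have hnle : ¬ (y.1.1 ⊆ y'.1.1) := fun hle => hA y.2 y'.2 (fun h => hne (Subtype.ext h)) hle
      obtain ⟨x, hx, hx'⟩ := Set.not_subset.1 hnle
      exact ⟨x, hx, hx'⟩
    · rw [h5, hcard]
      exact Order.lt_succ _

theorem forced : ∃ (P : Type) (_ : Preorder P), Nonempty P ∧ IsCCC P ∧
    ∀ p : P, p ∈ CardinalsPreserved P ∧ p ∈ Fails P := by
  obtain ⟨P, _, hP, hccc, h⟩ := Pool.Agent.H625.IdA.exists_forcing
  exact ⟨P, inferInstance, hP, hccc, fun p => ⟨(h p).1, (h p).2⟩⟩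

/-- (1) There is a nonempty preordered set `P` of forcing conditions with the countable chain
condition such that every condition forces: all cardinals are preserved, and there is a poset
without antichains of size `ℵ₁` which has more than `2 ^ ℵ₁` pairwise incomparable ideals.

(2) For the trivial forcing the second sentence says that Q2 fails for `μ = ℵ₁`.

(3) Under GCH, Q2 holds for all `μ`.

So Q2 is independent of ZFC. -/
theorem result :
    (∃ (P : Type) (_ : Preorder P), Nonempty P ∧ IsCCC P ∧
      ∀ p : P, p ∈ CardinalsPreserved P ∧ p ∈ Fails P) ∧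
    (∀ p : Unit, p ∈ Fails Unit ↔ ¬ QTwo ℵ₁) ∧
    ((∀ ν : Cardinal.{0}, ℵ₀ ≤ ν → 2 ^ ν = Order.succ ν) → ∀ μ : Cardinal.{0}, QTwo μ) :=
  ⟨forced, fails_unit, fun h μ X _ hX =>
    Pool.Agent.Results.MP_88803c_co.IdealAntichainsTwoPow.result.2.2 h μ X hX⟩

end Pool.Agent.Results.MP_88803c_co.SecondQuestionIndependent
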